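import Pool.Agent.MP_66cee2_co.H44.Gadget

/-!
Images of cross-polytopes under a map that preserves the distance `√2`.
-/

namespace Pool.Agent.MP_66cee2_co.H44

open Module Finset
open scoped RealInnerProductSpace

variable {E F : Type*} [NormedAddCommGroup E] [InnerProductSpace ℝ E] [FiniteDimensional ℝ E]
  [NormedAddCommGroup F] [InnerProductSpace ℝ F] [FiniteDimensional ℝ F]

/-- The map preserves the distance `√2`. -/
def Pres (g : E → F) : Prop := ∀ x y, ‖x - y‖ ^ 2 = 2 → ‖g x - g y‖ ^ 2 = 2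

/-- Midpoint of the image of a diameter. -/
noncomputable def mid (g : E → F) (c e : E) : F := (1 / 2 : ℝ) • (g (c + e) + g (c - e))

/-- Half of the image of a diameter. -/
noncomputable def half (g : E → F) (c e : E) : F := (1 / 2 : ℝ) • (g (c + e) - g (c - e))

omit [FiniteDimensional ℝ E] [FiniteDimensional ℝ F] [InnerProductSpace ℝ E] in
theorem mid_add_half (g : E → F) (c e : E) : g (c + e) = mid g c e + half g c e := by
  simp only [mid, half]; module

omit [FiniteDimensional ℝ E] [FiniteDimensional ℝ F] [InnerProductSpace ℝ E] in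
theorem mid_sub_half (g : E → F) (c e : E) : g (c - e) = mid g c e - half g c e := by
  simp only [mid, half]; module

omit [FiniteDimensional ℝ F] in
theorem pair_aux (D h h' : F) (h1 : ‖D + h - h'‖ ^ 2 = 2) (h2 : ‖D + h + h'‖ ^ 2 = 2)
    (h3 : ‖D - h - h'‖ ^ 2 = 2) (h4 : ‖D - h + h'‖ ^ 2 = 2) :
    ⟪h, h'⟫ = 0 ∧ ⟪D, h⟫ = 0 ∧ ‖D‖ ^ 2 = (1 - ‖h‖ ^ 2) + (1 - ‖h'‖ ^ 2) := by
  simp only [norm_add_sq_real, norm_sub_sq_real, inner_add_left, inner_sub_left] at h1 h2 h3 h4
  refine ⟨?_, ?_, ?_⟩ <;> linarith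

variable {g : E → F}

omit [FiniteDimensional ℝ E] [FiniteDimensional ℝ F] in
theorem pair (hg : Pres g) (c : E) {e e' : E} (he : ‖e‖ = 1) (he' : ‖e'‖ = 1) (h : ⟪e, e'⟫ = 0) :
    ⟪half g c e, half g c e'⟫ = 0 ∧ ⟪mid g c e - mid g c e', half g c e⟫ = 0 ∧
      ‖mid g c e - mid g c e'‖ ^ 2 = (1 - ‖half g c e‖ ^ 2) + (1 - ‖half g c e'‖ ^ 2) := by
  have a1 : ‖e - e'‖ ^ 2 = 2 := by rw [norm_sub_sq_real, he, he', h]; norm_num
  have a2 : ‖e + e'‖ ^ 2 = 2 := by rw [norm_add_sq_real, he, he', h]; norm_num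
  have b1 := hg (c + e) (c + e') (by rw [← a1]; congr 2; abel)
  have b2 := hg (c + e) (c - e') (by rw [← a2]; congr 2; abel)
  have b3 := hg (c - e) (c + e') (by rw [← a2, ← norm_neg]; congr 2; abel)
  have b4 := hg (c - e) (c - e') (by rw [← a1, ← norm_neg]; congr 2; abel)
  rw [mid_add_half g c e, mid_add_half g c e'] at b1
  rw [mid_add_half g c e, mid_sub_half g c e'] at b2
  rw [mid_sub_half g c e, mid_add_half g c e'] at b3
  rw [mid_sub_half g c e, mid_sub_half g c e'] at b4
  refine pair_aux _ _ _ ?_ ?_ ?_ ?_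
  · rw [← b1]; congr 2; abel
  · rw [← b2]; congr 2; abel
  · rw [← b3]; congr 2; abel
  · rw [← b4]; congr 2; abel

theorem exists_sub_family {ι : Type*} (s : Finset ι) {j : ℕ} (h : j ≤ #s) :
    ∃ φ : Fin j → ι, Function.Injective φ ∧ ∀ a, φ a ∈ s := by
  obtain ⟨ψ⟩ : Nonempty (Fin j ↪ s) := Function.Embedding.nonempty_of_card_le (by simpa using h)
  exact ⟨fun a => ψ a, Subtype.val_injective.comp ψ.injective, fun a => (ψ a).2⟩

omit [FiniteDimensional ℝ E] [FiniteDimensional ℝ F] [NormedAddCommGroup F]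
  [InnerProductSpace ℝ F] in
/-- The configuration given by a gadget, at a centre `c`. -/
theorem Gadget.config {j N : ℕ} (hG : Gadget E j N) (c : E) (e : Fin j → E)
    (he : Orthonormal ℝ e) (R : F → F → Prop) (hR : ∀ x y, R x y → R y x) (y : E → F)
    (h : ∀ x x', ‖x - x'‖ ^ 2 = 2 → R (y x) (y x'))
    (h' : ∀ a z, R z (y (c - e a)) → R z (y (c + e a))) :
    ∃ p : Fin N ⊕ Fin j → E, ∀ i k, i ≠ k → R (y (p i)) (y (p k)) := by
  obtain ⟨t, ht, ht'⟩ := hG e he
  have key : ∀ i a, R (y (c + t i)) (y (c + e a)) := by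
    intro i a
    rcases ht' i a with h1 | h1
    · exact h _ _ (by rw [← h1]; congr 2; abel)
    · exact h' _ _ (h _ _ (by rw [← h1]; congr 2; abel))
  refine ⟨Sum.elim (fun i => c + t i) (fun a => c + e a), ?_⟩
  rintro (i | a) (k | b) hik
  · exact h _ _ (by rw [← ht i k (fun e => hik (by rw [e]))]; congr 2; simp)
  · exact key _ _
  · exact hR _ _ (key _ _)
  · refine h _ _ ?_
    have hab : a ≠ b := fun e => hik (by rw [e])
    simp only [Sum.elim_inr, add_sub_add_left_eq_sub]
    rw [norm_sub_sq_real, he.1, he.1, he.2 hab]; norm_num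

variable {j N m : ℕ}

omit [FiniteDimensional ℝ E] in
open Classical in
theorem few_collapsed (hg : Pres g) (hG : Gadget E j N) (hn : finrank ℝ F + 2 ≤ N + j) (c : E)
    {ι : Type*} [Fintype ι] (v : ι → E) (hv : Orthonormal ℝ v) :
    #{i | half g c (v i) = 0} < j := by
  by_contra hlt
  obtain ⟨φ, hφ, hφ'⟩ := exists_sub_family _ (not_lt.1 hlt)
  obtain ⟨p, hp⟩ := hG.config c (v ∘ φ) (hv.comp _ hφ) (fun x y => ‖x - y‖ ^ 2 = 2)
    (fun x y h => by rwa [norm_sub_rev]) g hg (fun a z h => by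
      have := (Finset.mem_filter.1 (hφ' a)).2
      rw [mid_sub_half g] at h
      rw [mid_add_half g]
      simp only [Function.comp, this, add_zero, sub_zero] at h ⊢
      exact h)
  have := card_le_of_clique _ hp
  simp at this
  omega

omit [FiniteDimensional ℝ E] in
open Classical in
theorem many_noncollapsed (hg : Pres g) (hG : Gadget E j N) (hn : finrank ℝ F + 2 ≤ N + j) (c : E)
    {ι : Type*} [Fintype ι] (v : ι → E) (hv : Orthonormal ℝ v) :
    Fintype.card ι < Fintype.card {i // half g c (v i) ≠ 0} + j := by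
  have h1 := few_collapsed hg hG hn c v hv
  have h2 := Finset.card_filter_add_card_filter_not (s := Finset.univ)
    (fun i => half g c (v i) = 0)
  rw [Fintype.card_subtype]
  simp only [Finset.card_univ, ne_eq] at h2 ⊢
  omega

omit [FiniteDimensional ℝ F] in
theorem inner_four (a b c d : F) :
    ⟪a - b, c - d⟫ = (‖a - d‖ ^ 2 + ‖b - c‖ ^ 2 - ‖a - c‖ ^ 2 - ‖b - d‖ ^ 2) / 2 := by
  simp only [norm_sub_sq_real, inner_sub_left, inner_sub_right]
  ring

theorem exists_full (hg : Pres g) (hG : Gadget E j N) (hn : finrank ℝ F + 2 ≤ N + j)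
    (hm : finrank ℝ F ≤ finrank ℝ E + m) (hd : m + j + 2 ≤ finrank ℝ E) (c x y : E) :
    ∃ e, ‖e‖ = 1 ∧ ⟪e, x⟫ = 0 ∧ ⟪e, y⟫ = 0 ∧ ‖half g c e‖ ^ 2 = 1 := by
  classical
  obtain ⟨v, hv, hv'⟩ := exists_orth_two x y (finrank ℝ E - 2) (by omega)
  obtain ⟨b, hb⟩ := exists_extend v hv (Sum.inl : _ → _ ⊕ Bool) Sum.inl_injective
    (by simp; omega)
  by_contra hcon
  have hnf : ∀ l, 1 - ‖half g c (b (Sum.inl l))‖ ^ 2 ≠ 0 := fun l h =>
    hcon ⟨v l, hv.1 l, (hv' l).1, (hv' l).2, by rw [hb] at h; linarith⟩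
  have P := fun i k (h : i ≠ k) => pair hg c (b.orthonormal.1 i) (b.orthonormal.1 k)
    (b.orthonormal.2 h)
  have P2 : ∀ i k l, ⟪mid g c (b k) - mid g c (b l), half g c (b i)⟫ = 0 := by
    intro i k l
    have : ∀ k, ⟪mid g c (b i) - mid g c (b k), half g c (b i)⟫ = 0 := fun k => by
      by_cases h : i = k
      · simp [h]
      · exact (P i k h).2.1
    have e : mid g c (b k) - mid g c (b l) =
        (mid g c (b i) - mid g c (b l)) - (mid g c (b i) - mid g c (b k)) := by abel
    rw [e, inner_sub_left, this, this, sub_zero]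
  have h1 := many_noncollapsed hg hG hn c b b.orthonormal
  have h2 := card_le_of_dual (ι := {i // half g c (b i) ≠ 0} ⊕ Fin (finrank ℝ E - 2))
    (Sum.elim (fun i => half g c (b i)) fun l => mid g c (b (Sum.inl l)) - mid g c (b (Sum.inr false)))
    (Sum.elim (fun i => half g c (b i)) fun l => mid g c (b (Sum.inl l)) - mid g c (b (Sum.inr true)))
    (by
      rintro (i | l) (k | l') hik
      · exact (P i k fun e => hik (by rw [Subtype.ext e])).1
      · simp only [Sum.elim_inl, Sum.elim_inr]; rw [real_inner_comm]; exact P2 _ _ _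
      · exact P2 _ _ _
      · simp only [Sum.elim_inr]
        have hl : l ≠ l' := fun e => hik (by rw [e])
        rw [inner_four, (P _ _ (by simp)).2.2, (P _ _ (by simp)).2.2, (P _ _ (by simp [hl])).2.2,
          (P _ _ (by simp)).2.2]
        ring)
    (by
      rintro (i | l)
      · simpa using i.2
      · simp only [Sum.elim_inr]
        rw [inner_four, (P _ _ (by simp)).2.2, (P _ _ (by simp)).2.2, sub_self,
          (P _ _ (by simp)).2.2]
        intro h
        apply hnf l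
        simp only [norm_zero] at h
        linarith)
  simp only [Fintype.card_sum, Fintype.card_fin, Fintype.card_bool] at h1 h2
  omega

/-- `o c` is the centre of the image of the unit sphere about `c`. -/
def IsCtr (g o : E → F) : Prop := ∀ c e, ‖e‖ = 1 →
  ‖mid g c e - o c‖ ^ 2 = 1 - ‖half g c e‖ ^ 2 ∧ ⟪mid g c e - o c, half g c e⟫ = 0

theorem exists_ctr (hg : Pres g) (hG : Gadget E j N) (hn : finrank ℝ F + 2 ≤ N + j)
    (hm : finrank ℝ F ≤ finrank ℝ E + m) (hd : m + j + 2 ≤ finrank ℝ E) : ∃ o, IsCtr g o := by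
  choose e₀ h1 _ _ h2 using fun c => exists_full hg hG hn hm hd c 0 0
  refine ⟨fun c => mid g c (e₀ c), fun c e he => ?_⟩
  obtain ⟨e', h3, h4, h5, h6⟩ := exists_full hg hG hn hm hd c e (e₀ c)
  have a := (pair hg c h3 (h1 c) h5).2.2
  rw [h6, h2] at a
  have a' : mid g c e' = mid g c (e₀ c) := by simpa [sub_eq_zero] using a
  have := (pair hg c he h3 (by rwa [real_inner_comm])).2
  rw [h6, a'] at this
  simpa using this.symm

variable {o : E → F}

omit [FiniteDimensional ℝ E] [FiniteDimensional ℝ F] [InnerProductSpace ℝ E] in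
theorem IsCtr.sphere (ho : IsCtr g o) (c : E) {e : E} (he : ‖e‖ = 1) :
    ‖g (c + e) - o c‖ ^ 2 = 1 := by
  have e1 : g (c + e) - o c = (mid g c e - o c) + half g c e := by rw [mid_add_half g]; abel
  rw [e1, norm_add_sq_real, (ho c e he).1, (ho c e he).2]
  ring

omit [FiniteDimensional ℝ E] [FiniteDimensional ℝ F] in
theorem IsCtr.orth (ho : IsCtr g o) (hg : Pres g) (c : E) {e e' : E} (he : ‖e‖ = 1)
    (he' : ‖e'‖ = 1) (h : ⟪e, e'⟫ = 0) :
    ⟪mid g c e - o c, mid g c e' - o c⟫ = 0 ∧ ⟪mid g c e' - o c, half g c e⟫ = 0 := by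
  have P := pair hg c he he' h
  constructor
  · rw [inner_sub_eq, P.2.2, (ho c e he).1, (ho c e' he').1]; ring
  · have e1 : mid g c e' - o c = (mid g c e - o c) - (mid g c e - mid g c e') := by abel
    rw [e1, inner_sub_left, P.2.1, (ho c e he).2, sub_zero]

open Classical in
theorem few_nonfull (hg : Pres g) (hG : Gadget E j N) (hn : finrank ℝ F + 2 ≤ N + j)
    (hm : finrank ℝ F ≤ finrank ℝ E + m) (ho : IsCtr g o) (c : E)
    {ι : Type*} [Fintype ι] (v : ι → E) (hv : Orthonormal ℝ v) :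
    #{i | mid g c (v i) - o c ≠ 0} < m + j := by
  obtain ⟨b, hb⟩ := exists_extend_sum v hv
  have h0 := hv.linearIndependent.fintype_card_le_finrank
  have h1 := many_noncollapsed hg hG hn c b b.orthonormal
  have hx : ∀ i k, ⟪mid g c (b k) - o c, half g c (b i)⟫ = 0 := fun i k => by
    by_cases h : i = k
    · subst h; exact (ho c _ (b.orthonormal.1 i)).2
    · exact (ho.orth hg c (b.orthonormal.1 i) (b.orthonormal.1 k) (b.orthonormal.2 h)).2
  have h2 := card_le_of_orth (ι := {i // half g c (b i) ≠ 0} ⊕ {i // mid g c (v i) - o c ≠ 0})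
    (Sum.elim (fun i => half g c (b i)) fun l => mid g c (v l) - o c)
    (by
      rintro (i | l) (k | l') hik
      · exact (pair hg c (b.orthonormal.1 i) (b.orthonormal.1 k)
          (b.orthonormal.2 fun e => hik (by rw [Subtype.ext e]))).1
      · simp only [Sum.elim_inl, Sum.elim_inr]; rw [real_inner_comm, ← hb]; exact hx _ _
      · simp only [Sum.elim_inl, Sum.elim_inr]; rw [← hb]; exact hx _ _
      · exact (ho.orth hg c (hv.1 l) (hv.1 l') (hv.2 fun e => hik (by rw [Subtype.ext e]))).1)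
    (by
      rintro (i | l)
      · exact i.2
      · exact l.2)
  rw [Fintype.card_sum, Fintype.card_subtype (fun i => mid g c (v i) - o c ≠ 0)] at h2
  simp only [Fintype.card_sum, Fintype.card_fin] at h1
  omega

end Pool.Agent.MP_66cee2_co.H44
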