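import Mathlib

/-!
Linear algebra used for maps that preserve one distance.
-/

namespace Pool.Agent.MP_66cee2_co.H44

open Module Finset
open scoped RealInnerProductSpace

variable {E F : Type*} [NormedAddCommGroup E] [InnerProductSpace ℝ E] [FiniteDimensional ℝ E]
  [NormedAddCommGroup F] [InnerProductSpace ℝ F] [FiniteDimensional ℝ F]

/-- A family with a dual family is no larger than the dimension. -/
theorem card_le_of_dual {ι : Type*} [Fintype ι] (v w : ι → F)
    (h0 : ∀ i k, i ≠ k → ⟪v i, w k⟫ = 0) (h1 : ∀ i, ⟪v i, w i⟫ ≠ 0) :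
    Fintype.card ι ≤ finrank ℝ F := by
  have : LinearIndependent ℝ v := by
    rw [Fintype.linearIndependent_iff]
    intro g hg k
    have := congrArg (fun x => ⟪x, w k⟫) hg
    simp only [sum_inner, inner_smul_left, inner_zero_left, conj_trivial] at this
    rw [Finset.sum_eq_single k (fun i _ hi => by rw [h0 i k hi, mul_zero]) (by simp)] at this
    exact (mul_eq_zero.1 this).resolve_right (h1 k)
  exact this.fintype_card_le_finrank

theorem card_le_of_orth {ι : Type*} [Fintype ι] (v : ι → F)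
    (h0 : ∀ i k, i ≠ k → ⟪v i, v k⟫ = 0) (h1 : ∀ i, v i ≠ 0) :
    Fintype.card ι ≤ finrank ℝ F :=
  card_le_of_dual v v h0 fun i => by simpa using h1 i

omit [FiniteDimensional ℝ F] in
theorem inner_sub_eq (x y z : F) :
    ⟪x - z, y - z⟫ = (‖x - z‖ ^ 2 + ‖y - z‖ ^ 2 - ‖x - y‖ ^ 2) / 2 := by
  have : x - y = (x - z) - (y - z) := by abel
  rw [this, norm_sub_sq_real (x - z) (y - z)]
  ring

/-- An equilateral set has at most `dim + 1` points. -/
theorem card_le_of_clique {ι : Type*} [Fintype ι] (y : ι → F)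
    (h : ∀ i k, i ≠ k → ‖y i - y k‖ ^ 2 = 2) : Fintype.card ι ≤ finrank ℝ F + 1 := by
  classical
  rcases isEmpty_or_nonempty ι with hι | ⟨⟨i₀⟩⟩
  · simp
  have hc : Fintype.card {i // i ≠ i₀} = Fintype.card ι - 1 := by
    simp [Fintype.card_subtype_compl]
  have hpos : 0 < Fintype.card ι := Fintype.card_pos_iff.2 ⟨i₀⟩
  let v : {i // i ≠ i₀} → F := fun i => y i - y i₀
  have hv : ∀ i k : {i // i ≠ i₀}, ⟪v i, v k⟫ = 1 + if i = k then 1 else 0 := by
    intro i k
    rw [inner_sub_eq, h _ _ i.2, h _ _ k.2]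
    split_ifs with hik
    · subst hik; simp; norm_num
    · rw [h _ _ (fun e => hik (Subtype.ext e))]; norm_num
  have hw : ∀ i k : {i // i ≠ i₀},
      ⟪v i, (Fintype.card ι : ℝ) • v k - ∑ l, v l⟫ = if i = k then (Fintype.card ι : ℝ) else 0 := by
    intro i k
    rw [inner_sub_right, inner_smul_right, inner_sum]
    simp only [hv, Finset.sum_add_distrib, Finset.sum_ite_eq, Finset.mem_univ, if_true,
      Finset.sum_const, Finset.card_univ, hc, nsmul_eq_mul, mul_one]
    rw [Nat.cast_sub hpos]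
    split_ifs <;> push_cast <;> ring
  have := card_le_of_dual v (fun k => (Fintype.card ι : ℝ) • v k - ∑ l, v l)
    (fun i k hik => by rw [hw, if_neg hik]) (fun i => by rw [hw, if_pos rfl]; positivity)
  omega

/-- An orthonormal family extends along an injection into a type of the size of the dimension. -/
theorem exists_extend {ι κ : Type*} [Fintype κ] (v : ι → E) (hv : Orthonormal ℝ v) (φ : ι → κ)
    (hφ : Function.Injective φ) (hκ : Fintype.card κ = finrank ℝ E) :
    ∃ b : OrthonormalBasis κ ℝ E, ∀ i, b (φ i) = v i := by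
  classical
  let w : κ → E := Function.extend φ v 0
  have hw : ∀ i, w (φ i) = v i := fun i => hφ.extend_apply v 0 i
  have : Orthonormal ℝ ((Set.range φ).domRestrict w) := by
    rw [orthonormal_iff_ite]
    rintro ⟨_, i, rfl⟩ ⟨_, k, rfl⟩
    simp only [Set.domRestrict, hw, orthonormal_iff_ite.1 hv]
    exact if_congr ⟨fun h => by subst h; rfl, fun h => hφ (congrArg Subtype.val h)⟩ rfl rfl
  obtain ⟨b, hb⟩ := this.exists_orthonormalBasis_extension_of_card_eq hκ.symm
  exact ⟨b, fun i => by rw [hb _ ⟨i, rfl⟩, hw]⟩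

/-- An orthonormal family extends to an orthonormal basis indexed by a sum type. -/
theorem exists_extend_sum {ι : Type*} [Fintype ι] (v : ι → E) (hv : Orthonormal ℝ v) :
    ∃ b : OrthonormalBasis (ι ⊕ Fin (finrank ℝ E - Fintype.card ι)) ℝ E,
      ∀ i, b (Sum.inl i) = v i := by
  have := hv.linearIndependent.fintype_card_le_finrank
  exact exists_extend v hv Sum.inl Sum.inl_injective (by simp; omega)

/-- Orthonormal families orthogonal to two given vectors. -/
theorem exists_orth_two (x y : E) (k : ℕ) (hk : k + 2 ≤ finrank ℝ E) :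
    ∃ v : Fin k → E, Orthonormal ℝ v ∧ ∀ i, ⟪v i, x⟫ = 0 ∧ ⟪v i, y⟫ = 0 := by
  classical
  let S : Submodule ℝ E := Submodule.span ℝ (({x, y} : Finset E) : Set E)
  have hS : finrank ℝ S ≤ 2 := by
    refine (finrank_span_finset_le_card _).trans ?_
    exact Finset.card_le_two
  have h2 := S.finrank_add_finrank_orthogonal
  have hk' : k ≤ finrank ℝ Sᗮ := by omega
  let b := stdOrthonormalBasis ℝ Sᗮ
  refine ⟨fun i => (b (Fin.castLE hk' i) : E), ?_, fun i => ⟨?_, ?_⟩⟩
  · exact (b.orthonormal.comp _ (Fin.castLE_injective hk')).comp_linearIsometry Sᗮ.subtypeₗᵢ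
  · exact Submodule.inner_left_of_mem_orthogonal (Submodule.subset_span (by simp)) (b _).2
  · exact Submodule.inner_left_of_mem_orthogonal (Submodule.subset_span (by simp)) (b _).2

omit [FiniteDimensional ℝ E] in
/-- A centred regular simplex in the span of an orthonormal family. -/
theorem exists_simplex {ν : ℕ} (b : Fin ν → E) (hb : Orthonormal ℝ b) :
    ∃ γ : Option (Fin ν) → E,
      (∀ i k, ⟪γ i, γ k⟫ = (if i = k then 1 else 0) - 1 / ((ν : ℝ) + 1)) ∧
      ∀ y, (∀ i, ⟪b i, y⟫ = 0) → ∀ i, ⟪γ i, y⟫ = 0 := by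
  classical
  set r : ℝ := √((ν : ℝ) + 1) with hr
  have hr2 : r ^ 2 = ν + 1 := Real.sq_sqrt (by positivity)
  have hr0 : 0 < r := Real.sqrt_pos.2 (by positivity)
  have hν : (ν : ℝ) = r ^ 2 - 1 := by linarith
  let σ : E := ∑ i, b i
  have h1 : ∀ i, ⟪b i, σ⟫ = 1 := fun i => by
    simp [σ, inner_sum, orthonormal_iff_ite.1 hb]
  have h1' : ∀ i, ⟪σ, b i⟫ = 1 := fun i => by rw [real_inner_comm, h1]
  have h2 : ⟪σ, σ⟫ = r ^ 2 - 1 := by
    conv_lhs => rw [show ⟪σ, σ⟫ = ⟪∑ i, b i, σ⟫ from rfl, sum_inner]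
    simp [h1, hν]
  let α : ℝ := 1 / (r * (r + 1))
  refine ⟨fun i => Option.elim i (-(1 / r) • σ) (fun i => b i - α • σ), ?_, ?_⟩
  · rw [← hr2]
    rintro (_ | i) (_ | k) <;>
      simp only [Option.elim, inner_sub_left, inner_sub_right, inner_smul_left, inner_smul_right,
        h1, h1', h2, conj_trivial, orthonormal_iff_ite.1 hb, reduceCtorEq, if_false, if_true,
        Option.some.injEq, α]
    · field_simp
    · field_simp; ring
    · field_simp; ring
    · field_simp; ring
  · intro y hy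
    have : ⟪σ, y⟫ = 0 := by simp [σ, sum_inner, hy]
    rintro (_ | i) <;>
      simp only [Option.elim, inner_sub_left, inner_smul_left, this, hy, mul_zero, sub_zero]

/-- Transport of an orthonormal family to another one by a linear isometry. -/
theorem exists_transport {V : Type*} [NormedAddCommGroup V] [InnerProductSpace ℝ V]
    [FiniteDimensional ℝ V] (h : finrank ℝ V ≤ finrank ℝ E) {ι : Type*} [Fintype ι]
    (u : ι → V) (hu : Orthonormal ℝ u) (e : ι → E) (he : Orthonormal ℝ e) :
    ∃ L : V →ₗᵢ[ℝ] E, ∀ a, L (u a) = e a := by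
  obtain ⟨b, hb⟩ := exists_extend_sum u hu
  obtain ⟨b', hb'⟩ := exists_extend_sum e he
  have hle : finrank ℝ V - Fintype.card ι ≤ finrank ℝ E - Fintype.card ι := by omega
  let φ : ι ⊕ Fin (finrank ℝ V - Fintype.card ι) → ι ⊕ Fin (finrank ℝ E - Fintype.card ι) :=
    Sum.map id (Fin.castLE hle)
  have hφ : Function.Injective φ :=
    Function.Injective.sumMap Function.injective_id (Fin.castLE_injective hle)
  let L₀ : V →ₗ[ℝ] E := b.toBasis.constr ℝ (fun i => b' (φ i))
  have hL : ∀ i, L₀ (b i) = b' (φ i) := fun i => b.toBasis.constr_basis ℝ _ i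
  have : Orthonormal ℝ (L₀ ∘ b.toBasis) := by
    have : L₀ ∘ b.toBasis = b' ∘ φ := funext hL
    rw [this]
    exact b'.orthonormal.comp _ hφ
  refine ⟨L₀.isometryOfOrthonormal (v := b.toBasis) (by simp) this,
    fun a => ?_⟩
  rw [← hb, ← hb']
  exact hL _

end Pool.Agent.MP_66cee2_co.H44
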