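import Pool.Agent.MP_66cee2_co.H44.Basic

/-!
Regular simplices all of whose vertices are adjacent to an end of each of several
orthogonal diameters of the unit sphere.
-/

namespace Pool.Agent.MP_66cee2_co.H44

open Module Finset
open scoped RealInnerProductSpace

/-- For every `j` orthonormal vectors there are `N` points at mutual distance `√2`, each at
distance `√2` from `e a` or from `-e a` for every `a`. -/
def Gadget (E : Type*) [NormedAddCommGroup E] [InnerProductSpace ℝ E] (j N : ℕ) : Prop :=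
  ∀ e : Fin j → E, Orthonormal ℝ e → ∃ t : Fin N → E, (∀ i k, i ≠ k → ‖t i - t k‖ ^ 2 = 2) ∧
    ∀ i a, ‖t i - e a‖ ^ 2 = 2 ∨ ‖t i + e a‖ ^ 2 = 2

variable {E : Type*} [NormedAddCommGroup E] [InnerProductSpace ℝ E] [FiniteDimensional ℝ E]

theorem gadget_of_data {ι κ : Type} [Fintype ι] [Fintype κ] [DecidableEq ι] [DecidableEq κ]
    {j N : ℕ} (hN : Fintype.card ι = N) (hd : N + Fintype.card κ ≤ finrank ℝ E + 1)
    (q : ι → ℝ) (ε : Fin j → ι → ℝ) (η : Fin j → κ → ℝ) (c₀ : ℝ)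
    (hε : ∀ a i, ε a i = 1 ∨ ε a i = -1)
    (h1 : ∑ i, (c₀ - q i) = 1) (h2 : ∑ i, (c₀ - q i) ^ 2 = 2 * c₀)
    (h3 : ∀ a, ∑ i, ε a i * q i = 0) (h4 : ∀ a, ∑ i, ε a i * q i ^ 2 = 0)
    (h5 : ∀ a b, ∑ i, ε a i * ε b i * q i ^ 2 + ∑ k, η a k * η b k = if a = b then 1 else 0) :
    Gadget E j N := by
  intro e he
  let one : EuclideanSpace ℝ (ι ⊕ κ) := WithLp.toLp 2 (Sum.elim (fun _ => 1) (fun _ => 0))
  let c : EuclideanSpace ℝ (ι ⊕ κ) := WithLp.toLp 2 (Sum.elim (fun i => c₀ - q i) (fun _ => 0))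
  let δ : ι → EuclideanSpace ℝ (ι ⊕ κ) := fun i => EuclideanSpace.single (Sum.inl i) 1
  let u : Fin j → EuclideanSpace ℝ (ι ⊕ κ) := fun a => WithLp.toLp 2 (Sum.elim (fun i => ε a i * q i) (η a))
  have hδ : ∀ i (y : EuclideanSpace ℝ (ι ⊕ κ)), ⟪δ i, y⟫ = y (Sum.inl i) := fun i y => by
    simp [δ, EuclideanSpace.inner_single_left]
  have hδδ : ∀ i k, ⟪δ i, δ k⟫ = if i = k then 1 else 0 := fun i k => by
    rw [hδ]; simp [δ]
  have hc1 : ⟪c, one⟫ = 1 := by
    simp only [c, one, PiLp.inner_apply, Fintype.sum_sum_type]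
    simpa using h1
  have hcc : ⟪c, c⟫ = 2 * c₀ := by
    simp only [c, PiLp.inner_apply, Fintype.sum_sum_type]
    simpa [sq] using h2
  have hu1 : ∀ a, ⟪u a, one⟫ = 0 := fun a => by
    simp only [u, one, PiLp.inner_apply, Fintype.sum_sum_type]
    simpa using h3 a
  have hcu : ∀ a, ⟪c, u a⟫ = 0 := fun a => by
    simp only [u, c, PiLp.inner_apply, Fintype.sum_sum_type]
    have : ∑ i, ε a i * q i * (c₀ - q i) = c₀ * ∑ i, ε a i * q i - ∑ i, ε a i * q i ^ 2 := by
      rw [Finset.mul_sum, ← Finset.sum_sub_distrib]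
      exact Finset.sum_congr rfl fun i _ => by ring
    rw [h3, h4] at this
    simpa using this
  have huu : ∀ a b, ⟪u a, u b⟫ = if a = b then 1 else 0 := fun a b => by
    simp only [u, PiLp.inner_apply, Fintype.sum_sum_type]
    rw [← h5 a b]
    simp only [Sum.elim_inl, Sum.elim_inr, RCLike.inner_apply, conj_trivial]
    congr 1 <;> exact Finset.sum_congr rfl fun i _ => by ring
  have hone : one ≠ 0 := fun h => by simp [h] at hc1
  let V : Submodule ℝ (EuclideanSpace ℝ (ι ⊕ κ)) := (Submodule.span ℝ {one})ᗮ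
  have hV : finrank ℝ V ≤ finrank ℝ E := by
    have := (Submodule.span ℝ {one}).finrank_add_finrank_orthogonal
    rw [finrank_span_singleton hone] at this
    have h' : finrank ℝ (EuclideanSpace ℝ (ι ⊕ κ)) = N + Fintype.card κ := by simp [hN]
    simp only [V]
    omega
  have hmem : ∀ y : EuclideanSpace ℝ (ι ⊕ κ), ⟪y, one⟫ = 0 → y ∈ V := fun y hy =>
    Submodule.mem_orthogonal_singleton_iff_inner_left.2 hy
  let u' : Fin j → V := fun a => ⟨u a, hmem _ (hu1 a)⟩
  let t' : ι → V := fun i => ⟨δ i - c, hmem _ (by rw [inner_sub_left, hδ, hc1]; simp [one])⟩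
  have hu' : Orthonormal ℝ u' := orthonormal_iff_ite.2 huu
  obtain ⟨L, hL⟩ := exists_transport hV u' hu' e he
  let φ : Fin N ≃ ι := (Fintype.equivFinOfCardEq hN).symm
  have ht : ∀ i, ‖δ i - c‖ ^ 2 = 1 + 2 * q i := fun i => by
    rw [norm_sub_sq_real, ← real_inner_self_eq_norm_sq, ← real_inner_self_eq_norm_sq, hδδ, hδ, hcc]
    simp [c]; ring
  have htu : ∀ i a, ⟪δ i - c, u a⟫ = ε a i * q i := fun i a => by
    rw [inner_sub_left, hδ, hcu]; simp [u]
  have hun : ∀ a, ‖u a‖ ^ 2 = 1 := fun a => by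
    rw [← real_inner_self_eq_norm_sq, huu, if_pos rfl]
  refine ⟨fun i => L (t' (φ i)), fun i k hik => ?_, fun i a => ?_⟩
  · rw [← map_sub, L.norm_map]
    change ‖(δ (φ i) - c) - (δ (φ k) - c)‖ ^ 2 = 2
    rw [sub_sub_sub_cancel_right, norm_sub_sq_real, ← real_inner_self_eq_norm_sq,
      ← real_inner_self_eq_norm_sq, hδδ, hδδ, hδδ, if_pos rfl, if_pos rfl,
      if_neg (φ.injective.ne hik)]
    norm_num
  · rw [← hL, ← map_sub, ← map_add, L.norm_map, L.norm_map]
    change ‖(δ (φ i) - c) - u a‖ ^ 2 = 2 ∨ ‖(δ (φ i) - c) + u a‖ ^ 2 = 2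
    rw [norm_sub_sq_real (δ (φ i) - c), norm_add_sq_real, ht, htu, hun]
    rcases hε a (φ i) with h | h <;> rw [h]
    · left; ring
    · right; ring

/-- Sylvester's Hadamard matrices. -/
theorem exists_hadamard (s j : ℕ) (R : Type) [Fintype R] (hR : Fintype.card R = 2 ^ s)
    (hj : j ≤ 2 ^ s) : ∃ H : R → Fin j → ℝ, (∀ u a, H u a = 1 ∨ H u a = -1) ∧
      ∀ a b, ∑ u, H u a * H u b = if a = b then 2 ^ s else 0 := by
  classical
  let H₀ : (Fin s → Bool) → (Fin s → Bool) → ℝ := fun u a =>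
    ∏ i, if u i && a i then -1 else 1
  have hs : ∀ u a, H₀ u a = 1 ∨ H₀ u a = -1 := by
    intro u a
    refine Finset.prod_induction _ (fun x : ℝ => x = 1 ∨ x = -1) ?_ (Or.inl rfl) ?_
    · rintro x y (rfl | rfl) (rfl | rfl) <;> norm_num
    · intro i _; split_ifs <;> simp
  have ho : ∀ a b, ∑ u, H₀ u a * H₀ u b = if a = b then 2 ^ s else 0 := by
    intro a b
    simp only [H₀, ← Finset.prod_mul_distrib]
    have := Finset.prod_univ_sum (fun _ : Fin s => (Finset.univ : Finset Bool))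
      (fun i (x : Bool) => (if x && a i then (-1 : ℝ) else 1) * (if x && b i then -1 else 1))
    rw [Fintype.piFinset_univ] at this
    rw [← this]
    split_ifs with hab
    · subst hab
      rw [Finset.prod_congr rfl (g := fun _ => (2 : ℝ))]
      · simp
      · intro i _; cases a i <;> norm_num [Fintype.sum_bool]
    · obtain ⟨i, hi⟩ := Function.ne_iff.1 hab
      refine Finset.prod_eq_zero (Finset.mem_univ i) ?_
      revert hi
      cases a i <;> cases b i <;> simp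
  have hc : Fintype.card (Fin s → Bool) = 2 ^ s := by simp
  let φ : R ≃ (Fin s → Bool) := Fintype.equivOfCardEq (hR.trans hc.symm)
  obtain ⟨ψ⟩ : Nonempty (Fin j ↪ (Fin s → Bool)) :=
    Function.Embedding.nonempty_of_card_le (by simpa using hj)
  refine ⟨fun u a => H₀ (φ u) (ψ a), fun u a => hs _ _, fun a b => ?_⟩
  rw [Equiv.sum_comp φ (fun u => H₀ u (ψ a) * H₀ u (ψ b)), ho]
  simp only [ψ.injective.eq_iff]

theorem exists_sum_sq (a : ℕ) (ha : 2 ≤ a) (σ w : ℝ) (h : σ ^ 2 ≤ a * w) :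
    ∃ x : Fin a → ℝ, ∑ i, x i = σ ∧ ∑ i, x i ^ 2 = w := by
  obtain ⟨b, rfl⟩ : ∃ b, a = b + 2 := ⟨a - 2, by omega⟩
  have hb : (0 : ℝ) < (b : ℝ) + 2 := by positivity
  have h' : 0 ≤ (w - σ ^ 2 / (b + 2)) / 2 := by
    have : σ ^ 2 / (b + 2) ≤ w := by
      rw [div_le_iff₀ hb]; push_cast at h; linarith
    linarith
  set τ := √((w - σ ^ 2 / (b + 2)) / 2)
  have hτ : τ ^ 2 = (w - σ ^ 2 / (b + 2)) / 2 := Real.sq_sqrt h'
  refine ⟨Fin.cons (σ / (b + 2) + τ) (Fin.cons (σ / (b + 2) - τ) fun _ => σ / (b + 2)), ?_, ?_⟩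
  · simp [Fin.sum_univ_succ]; field_simp; ring
  · simp only [Fin.sum_univ_succ, Fin.cons_zero, Fin.cons_succ, Finset.sum_const,
      Finset.card_univ, Fintype.card_fin, nsmul_eq_mul]
    have : (σ / (b + 2) + τ) ^ 2 + ((σ / (b + 2) - τ) ^ 2 + b * (σ / (b + 2)) ^ 2) =
        (b + 2) * (σ / (b + 2)) ^ 2 + 2 * τ ^ 2 := by ring
    rw [this, hτ]; field_simp; ring

theorem gadget (s r t a z j N : ℕ) (hrt : r + t = 2 ^ s) (hr : 1 ≤ r) (ha : 2 ≤ a)
    (hN : N = 2 * r * a + z) (hz : (z * r + (r + t)) ^ 2 ≤ 4 * N * r * (r + t)) (hj : j ≤ 2 ^ s)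
    (hd : N + t ≤ finrank ℝ E + 1) : Gadget E j N := by
  obtain ⟨H, hH, hH'⟩ := exists_hadamard s j (Fin r ⊕ Fin t) (by simpa using hrt) hj
  set M : ℝ := 2 ^ s with hM
  have hM0 : 0 < M := by positivity
  have hMrt : M = r + t := by rw [hM]; exact_mod_cast hrt.symm
  have hr0 : (0 : ℝ) < r := by exact_mod_cast hr
  have hNr : (N : ℝ) = 2 * r * a + z := by exact_mod_cast hN
  have ha0 : (2 : ℝ) ≤ a := by exact_mod_cast ha
  have hN0 : (0 : ℝ) < N := by rw [hNr]; positivity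
  set c₀ : ℝ := √(r / M / N) with hc₀
  have hc2 : c₀ ^ 2 = r / M / N := Real.sq_sqrt (by positivity)
  have hc0 : 0 ≤ c₀ := Real.sqrt_nonneg _
  have hc3 : N * c₀ ^ 2 = r / M := by rw [hc2]; field_simp
  have hz' : z * (r / M) + 1 ≤ 2 * N * c₀ := by
    refine (sq_le_sq₀ (by positivity) (by positivity)).1 ?_
    have hzr : ((z : ℝ) * r + M) ^ 2 ≤ 4 * N * r * M := by rw [hMrt]; exact_mod_cast hz
    have e1 : (2 * N * c₀) ^ 2 = 4 * N * (N * c₀ ^ 2) := by ring
    have e2 : z * (r / M) + 1 = (z * r + M) / M := by field_simp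
    rw [e1, hc3, e2, div_pow, div_le_iff₀ (by positivity)]
    calc _ ≤ _ := hzr
      _ = _ := by field_simp
  obtain ⟨x, hx1, hx2⟩ := exists_sum_sq a ha ((N * c₀ - 1) / (2 * r)) (1 / (2 * M)) (by
    rw [div_pow, div_le_iff₀ (by positivity)]
    have e1 : (a : ℝ) * (1 / (2 * M)) * (2 * r) ^ 2 = (N - z) * (r / M) := by
      rw [hNr]; field_simp; ring
    have e2 : (N * c₀ - 1) ^ 2 = N * (N * c₀ ^ 2) - 2 * N * c₀ + 1 := by ring
    rw [e1, e2, hc3]
    linarith)
  let q : (Fin r × Bool × Fin a) ⊕ Fin z → ℝ := Sum.elim (fun p => x p.2.2) (fun _ => 0)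
  let ε : Fin j → (Fin r × Bool × Fin a) ⊕ Fin z → ℝ := fun b =>
    Sum.elim (fun p => (if p.2.1 then 1 else -1) * H (Sum.inl p.1) b) (fun _ => 1)
  let η : Fin j → Fin t → ℝ := fun b k => H (Sum.inr k) b / √M
  have hq1 : ∑ i, q i = N * c₀ - 1 := by
    simp only [q, Fintype.sum_sum_type, Fintype.sum_prod_type, Sum.elim_inl, Sum.elim_inr, hx1]
    simp; field_simp
  have hq2 : ∑ i, q i ^ 2 = r / M := by
    simp only [q, Fintype.sum_sum_type, Fintype.sum_prod_type, Sum.elim_inl, Sum.elim_inr, hx2]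
    simp; field_simp
  have hcard : Fintype.card ((Fin r × Bool × Fin a) ⊕ Fin z) = N := by simp [hN]; ring
  refine gadget_of_data hcard (by simpa using hd) q ε η c₀ ?_ ?_ ?_ ?_ ?_ ?_
  · rintro b (⟨u, σ, i⟩ | i)
    · rcases hH (Sum.inl u) b with h | h <;> cases σ <;> simp [ε, h]
    · simp [ε]
  · rw [Finset.sum_sub_distrib, hq1]; simp [hcard]
  · have : ∀ i, (c₀ - q i) ^ 2 = c₀ ^ 2 - 2 * c₀ * q i + q i ^ 2 := fun i => by ring
    simp only [this, Finset.sum_add_distrib, Finset.sum_sub_distrib, ← Finset.mul_sum, hq1, hq2,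
      Finset.sum_const, Finset.card_univ, hcard, nsmul_eq_mul]
    linear_combination (-1 : ℝ) * hc3
  · intro b
    simp [q, ε, Fintype.sum_sum_type, Fintype.sum_prod_type]
  · intro b
    simp [q, ε, Fintype.sum_sum_type, Fintype.sum_prod_type]
  · intro b b'
    have := hH' b b'
    rw [Fintype.sum_sum_type] at this
    have e1 : ∑ i, ε b i * ε b' i * q i ^ 2 =
        (∑ u : Fin r, H (Sum.inl u) b * H (Sum.inl u) b') / M := by
      simp only [q, ε, Fintype.sum_sum_type, Fintype.sum_prod_type, Sum.elim_inl, Sum.elim_inr,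
        Finset.sum_div]
      simp only [ne_eq, OfNat.ofNat_ne_zero, not_false_eq_true, zero_pow, mul_zero,
        Finset.sum_const_zero, add_zero]
      refine Finset.sum_congr rfl fun u _ => ?_
      simp only [Fintype.sum_bool, if_true, Bool.false_eq_true, if_false, ← Finset.mul_sum, hx2]
      field_simp; ring
    have e2 : ∑ k, η b k * η b' k = (∑ u : Fin t, H (Sum.inr u) b * H (Sum.inr u) b') / M := by
      rw [Finset.sum_div]
      refine Finset.sum_congr rfl fun u _ => ?_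
      simp only [η]
      rw [div_mul_div_comm, Real.mul_self_sqrt hM0.le]
    rw [e1, e2, ← add_div, this]
    split_ifs
    · exact div_self hM0.ne'
    · simp

end Pool.Agent.MP_66cee2_co.H44
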