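import Pool.Agent.MP_66cee2_co.H44.Center

/-!
The centre map is affine, and the map is an isometry.
-/

namespace Pool.Agent.MP_66cee2_co.H44

open Module Finset
open scoped RealInnerProductSpace

variable {E F : Type*} [NormedAddCommGroup E] [InnerProductSpace ℝ E] [FiniteDimensional ℝ E]
  [NormedAddCommGroup F] [InnerProductSpace ℝ F] [FiniteDimensional ℝ F]

omit [FiniteDimensional ℝ F] in
open Classical in
theorem count_four {ι : Type*} [Fintype ι] (μ : Fin 4 → ι → F) (Δ : F) (K : ℕ)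
    (hsum : ∀ i, ∑ a, μ a i = Δ) (horth : ∀ a i k, i ≠ k → ⟪μ a i, μ a k⟫ = 0)
    (hK : ∀ a, #{i | μ a i ≠ 0} < K) (hc : 2 * K < Fintype.card ι) : Δ = 0 := by
  by_contra hΔ
  have h1 : ∀ a, #{i | μ a i = Δ} ≤ 1 := fun a => by
    refine Finset.card_le_one.2 fun i hi k hk => ?_
    by_contra hik
    have := horth a i k hik
    rw [(Finset.mem_filter.1 hi).2, (Finset.mem_filter.1 hk).2] at this
    exact hΔ (by simpa using this)
  let wt : Fin 4 → ι → ℕ := fun a i => (if μ a i ≠ 0 then 1 else 0) + if μ a i = Δ then 1 else 0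
  have h2 : ∀ i, 2 ≤ ∑ a, wt a i := fun i => by
    obtain ⟨a, ha⟩ : ∃ a, μ a i ≠ 0 := by
      by_contra h
      push Not at h
      exact hΔ (by rw [← hsum i]; simp [h])
    by_cases h : ∃ b, b ≠ a ∧ μ b i ≠ 0
    · obtain ⟨b, hb, hb'⟩ := h
      have := Finset.add_le_sum (f := fun a => wt a i) (s := Finset.univ)
        (fun _ _ => Nat.zero_le _) (Finset.mem_univ a) (Finset.mem_univ b) hb.symm
      simp only [wt, if_pos ha, if_pos hb'] at this ⊢
      omega
    · push Not at h
      have e : μ a i = Δ := by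
        rw [← hsum i, Finset.sum_eq_single a (fun b _ hb => h b hb) (by simp)]
      have := Finset.single_le_sum (f := fun a => wt a i) (s := Finset.univ)
        (fun _ _ => Nat.zero_le _) (Finset.mem_univ a)
      simp only [wt, if_pos ha, if_pos e] at this ⊢
      omega
  have h3 : ∀ a, ∑ i, wt a i ≤ K := fun a => by
    have := hK a
    have := h1 a
    simp only [wt, Finset.sum_add_distrib, ← Finset.card_filter]
    omega
  have h4 : ∑ _i : ι, 2 ≤ ∑ i, ∑ a, wt a i := Finset.sum_le_sum fun i _ => h2 i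
  have h5 : ∑ a, ∑ i, wt a i ≤ ∑ _a : Fin 4, K := Finset.sum_le_sum fun a _ => h3 a
  rw [Finset.sum_comm] at h4
  simp only [Finset.sum_const, Finset.card_univ, smul_eq_mul, Fintype.card_fin] at h4 h5
  omega

/-- The parallelogram relation for the map `o`. -/
def Par (o : E → F) (s w : E) : Prop := ∀ c, o (c + s + w) + o c = o (c + s) + o (c + w)

section
omit [InnerProductSpace ℝ E] [FiniteDimensional ℝ E] [InnerProductSpace ℝ F]
  [FiniteDimensional ℝ F]
variable {o : E → F}

theorem Par.symm {s w : E} (h : Par o s w) : Par o w s := fun c => by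
  rw [add_right_comm, h c, add_comm]

theorem Par.zero (s : E) : Par o s 0 := fun c => by simp

theorem Par.add {s w w' : E} (h : Par o s w) (h' : Par o s w') : Par o s (w + w') := fun c => by
  have h1 := h c
  have h2 := h' (c + w)
  rw [show c + w + s + w' = c + s + (w + w') by abel, show c + w + s = c + s + w by abel,
    show c + w + w' = c + (w + w') by abel] at h2
  linear_combination (norm := abel) h1 + h2

theorem Par.shift {s w : E} (h : Par o s w) (c : E) :
    o (c + w + s) - o (c + w) = o (c + s) - o c := by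
  have := h c
  rw [add_right_comm] at this
  linear_combination (norm := abel) this
end

omit [FiniteDimensional ℝ E] in
theorem of_small (P : E → Prop) (h0 : P 0) (hadd : ∀ x y, P x → P y → P (x + y)) {ε : ℝ}
    (hε : 0 < ε) (w : E) (h : ∀ t : ℝ, ‖t • w‖ ^ 2 < ε → P (t • w)) : P w := by
  obtain ⟨n, hn⟩ := exists_nat_gt (‖w‖ ^ 2 / ε)
  have hn1 : (0 : ℝ) < n + 1 := by positivity
  have h1 : P ((1 / ((n : ℝ) + 1)) • w) := by
    refine h _ ?_
    rw [norm_smul, mul_pow, Real.norm_eq_abs, sq_abs, div_pow, one_pow, div_mul_eq_mul_div,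
      one_mul, div_lt_iff₀ (by positivity)]
    rw [div_lt_iff₀ hε] at hn
    have : (n : ℝ) ≤ (n + 1) ^ 2 := by nlinarith
    nlinarith
  have h2 : ∀ k : ℕ, P (k • (1 / ((n : ℝ) + 1)) • w) := fun k => by
    induction k with
    | zero => simpa using h0
    | succ k ih => rw [succ_nsmul]; exact hadd _ _ ih h1
  have := h2 (n + 1)
  rwa [← Nat.cast_smul_eq_nsmul ℝ, smul_smul, Nat.cast_succ, mul_one_div_cancel hn1.ne',
    one_smul] at this

theorem exists_orth_norm (hd : 3 ≤ finrank ℝ E) (x y : E) {ρ : ℝ} (hρ : 0 ≤ ρ) :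
    ∃ v : E, ‖v‖ ^ 2 = ρ ∧ ⟪v, x⟫ = 0 ∧ ⟪v, y⟫ = 0 := by
  obtain ⟨v, hv, hv'⟩ := exists_orth_two x y 1 hd
  refine ⟨√ρ • v 0, ?_, ?_, ?_⟩
  · rw [norm_smul, hv.1, mul_one, Real.norm_eq_abs, sq_abs, Real.sq_sqrt hρ]
  · rw [inner_smul_left, (hv' 0).1, mul_zero]
  · rw [inner_smul_left, (hv' 0).2, mul_zero]

variable {g o : E → F} {j N m : ℕ}

theorem rect (hg : Pres g) (hG : Gadget E j N) (hn : finrank ℝ F + 2 ≤ N + j)
    (hm : finrank ℝ F ≤ finrank ℝ E + m) (hd : 2 * (m + j) + 2 ≤ finrank ℝ E) (ho : IsCtr g o)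
    {s w : E} (hsw : ⟪s, w⟫ = 0) (hr : ‖s‖ ^ 2 + ‖w‖ ^ 2 = 4 / (((2 * (m + j) : ℕ) : ℝ) + 1)) :
    Par o s w := by
  classical
  intro c
  obtain ⟨b, hb, hb'⟩ := exists_orth_two s w _ hd
  obtain ⟨γ, hγ, hγ'⟩ := exists_simplex b hb
  have hγs := hγ' s fun i => (hb' i).1
  have hγw := hγ' w fun i => (hb' i).2
  have hon : ∀ α β : ℝ, α ^ 2 = 1 / 4 → β ^ 2 = 1 / 4 →
      Orthonormal ℝ fun i => α • s + β • w + γ i := by
    intro α β hα hβ
    rw [orthonormal_iff_ite]
    intro i k
    simp only [inner_add_left, inner_add_right, inner_smul_left, inner_smul_right, hγ, hγs, hγw,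
      hsw, real_inner_comm s w, real_inner_comm (γ k) s, real_inner_comm (γ k) w,
      real_inner_self_eq_norm_sq, conj_trivial]
    linear_combination (‖s‖ ^ 2) * hα + (‖w‖ ^ 2) * hβ + (1 / 4 : ℝ) * hr
  let ctr : Fin 4 → E := ![c, c + s, c + s + w, c + w]
  let α : Fin 4 → ℝ := ![-1 / 2, 1 / 2, 1 / 2, -1 / 2]
  let β : Fin 4 → ℝ := ![1 / 2, 1 / 2, -1 / 2, -1 / 2]
  let σ : Fin 4 → ℝ := ![1, -1, 1, -1]
  have hσ : ∀ a, σ a ≠ 0 := fun a => by fin_cases a <;> simp [σ]
  have hv : ∀ a, Orthonormal ℝ fun i => α a • s + β a • w + γ i := fun a =>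
    hon _ _ (by fin_cases a <;> simp [α] <;> norm_num) (by fin_cases a <;> simp [β] <;> norm_num)
  have := count_four
    (fun a i => σ a • (mid g (ctr a) (α a • s + β a • w + γ i) - o (ctr a)))
    (o (c + s) + o (c + w) - (o (c + s + w) + o c)) (m + j) (fun i => ?_) (fun a i k hik => ?_)
    (fun a => ?_) (by simp)
  · exact (sub_eq_zero.1 this).symm
  · simp only [Fin.sum_univ_four, ctr, α, β, σ, mid, Matrix.cons_val_zero, Matrix.cons_val_one,
      Matrix.cons_val]
    rw [show c + s + ((1 / 2 : ℝ) • s + (1 / 2 : ℝ) • w + γ i) =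
        c + s + w + ((1 / 2 : ℝ) • s + (-1 / 2 : ℝ) • w + γ i) by module,
      show c + s - ((1 / 2 : ℝ) • s + (1 / 2 : ℝ) • w + γ i) =
        c - ((-1 / 2 : ℝ) • s + (1 / 2 : ℝ) • w + γ i) by module,
      show c + w + ((-1 / 2 : ℝ) • s + (-1 / 2 : ℝ) • w + γ i) =
        c + ((-1 / 2 : ℝ) • s + (1 / 2 : ℝ) • w + γ i) by module,
      show c + w - ((-1 / 2 : ℝ) • s + (-1 / 2 : ℝ) • w + γ i) =
        c + s + w - ((1 / 2 : ℝ) • s + (-1 / 2 : ℝ) • w + γ i) by module]
    module
  · simp only [inner_smul_left, inner_smul_right]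
    rw [(ho.orth hg (ctr a) ((hv a).1 i) ((hv a).1 k) ((hv a).2 hik)).1]
    simp
  · have := few_nonfull hg hG hn hm ho (ctr a) _ (hv a)
    simpa only [ne_eq, smul_eq_zero, hσ, false_or] using this

omit [FiniteDimensional ℝ F] in
theorem IsCtr.bound (ho : IsCtr g o) (hd : 3 ≤ finrank ℝ E) (c : E) {s : E} (hs : ‖s‖ ^ 2 ≤ 4) :
    ‖o (c + s) - o c‖ ≤ 2 := by
  obtain ⟨y, hy, hys, -⟩ := exists_orth_norm hd s s (ρ := 1 - ‖s‖ ^ 2 / 4) (by linarith)
  have h1 : ∀ α : ℝ, α ^ 2 = 1 / 4 → ‖α • s + y‖ = 1 := fun α hα => by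
    rw [← sq_eq_sq₀ (norm_nonneg _) zero_le_one, norm_add_sq_real, inner_smul_left,
      real_inner_comm, hys, hy, norm_smul, mul_pow, Real.norm_eq_abs, sq_abs, hα]
    ring
  have h2 := ho.sphere c (h1 (1 / 2) (by norm_num))
  have h3 := ho.sphere (c + s) (h1 (-1 / 2) (by norm_num))
  rw [show c + s + ((-1 / 2 : ℝ) • s + y) = c + ((1 / 2 : ℝ) • s + y) by module] at h3
  replace h2 := (pow_eq_one_iff_of_nonneg (norm_nonneg _) two_ne_zero).1 h2
  replace h3 := (pow_eq_one_iff_of_nonneg (norm_nonneg _) two_ne_zero).1 h3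
  calc _ = ‖(g (c + ((1 / 2 : ℝ) • s + y)) - o c) - (g (c + ((1 / 2 : ℝ) • s + y)) - o (c + s))‖ := by
        congr 1; abel
    _ ≤ _ := norm_sub_le _ _
    _ = 2 := by rw [h2, h3]; norm_num

omit [FiniteDimensional ℝ F] in
/-- From rectangles with one fixed diagonal to all parallelograms. -/
theorem par_all (hd : 3 ≤ finrank ℝ E) {δ : ℝ} (hδ : 0 < δ) (hδ' : δ ≤ 4)
    (hr : ∀ s w : E, ⟪s, w⟫ = 0 → ‖s‖ ^ 2 + ‖w‖ ^ 2 = δ → Par o s w)
    (hb : ∀ c s : E, ‖s‖ ^ 2 ≤ 4 → ‖o (c + s) - o c‖ ≤ 2) (s w : E) : Par o s w := by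
  have A : ∀ s w : E, ‖s‖ ^ 2 < δ → ⟪s, w⟫ = 0 → Par o s w := by
    intro s w hs hsw
    refine of_small (Par o s) (Par.zero s) (fun _ _ => Par.add) (ε := δ - ‖s‖ ^ 2) (by linarith) w
      fun t ht => ?_
    have hsw' : ⟪s, t • w⟫ = 0 := by rw [inner_smul_right, hsw, mul_zero]
    generalize t • w = w at ht hsw'
    obtain ⟨y, hy, hys, hyw⟩ := exists_orth_norm hd s w (ρ := δ - ‖s‖ ^ 2 - ‖w‖ ^ 2 / 4)
      (by nlinarith [sq_nonneg ‖w‖])
    have h1 : ∀ σ : ℝ, σ ^ 2 = 1 → Par o s ((1 / 2 : ℝ) • w + σ • y) := fun σ hσ => by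
      refine hr _ _ ?_ ?_
      · rw [inner_add_right, inner_smul_right, inner_smul_right, hsw', real_inner_comm, hys]; simp
      · rw [norm_add_sq_real, inner_smul_left, inner_smul_right, real_inner_comm, hyw, norm_smul,
          norm_smul, mul_pow, mul_pow, Real.norm_eq_abs, Real.norm_eq_abs, sq_abs, sq_abs, hσ, hy]
        ring
    have := (h1 1 (by norm_num)).add (h1 (-1) (by norm_num))
    rwa [show (1 / 2 : ℝ) • w + (1 : ℝ) • y + ((1 / 2 : ℝ) • w + (-1 : ℝ) • y) = w by module]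
      at this
  have B : ∀ (s : E) (t : ℝ), ‖s‖ ^ 2 < δ → Par o s (t • s) := by
    intro s t hs
    obtain ⟨s', h1, h2, -⟩ := exists_orth_norm hd s s (sq_nonneg ‖s‖)
    have h2' : ⟪s, s'⟫ = 0 := by rwa [real_inner_comm]
    let X : E → F := fun c => (o (c + t • s + s) - o (c + t • s)) - (o (c + s) - o c)
    have key : ∀ σ : ℝ, σ ^ 2 = 1 → ∀ c,
        X (c + t • ((1 / 2 : ℝ) • s - (σ / 2) • s')) = X c := by
      intro σ hσ
      set a : E := (1 / 2 : ℝ) • s + (σ / 2) • s' with ha
      set b : E := (1 / 2 : ℝ) • s - (σ / 2) • s' with hb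
      have hab : ⟪a, b⟫ = 0 := by
        simp only [ha, hb, inner_add_left, inner_sub_right, inner_smul_left, inner_smul_right, h2,
          h2', real_inner_self_eq_norm_sq, h1, conj_trivial]
        linear_combination (-‖s‖ ^ 2 / 4) * hσ
      have hna : ‖a‖ ^ 2 < δ := by
        rw [ha, norm_add_sq_real, inner_smul_left, inner_smul_right, h2', norm_smul, norm_smul,
          mul_pow, mul_pow, Real.norm_eq_abs, Real.norm_eq_abs, sq_abs, sq_abs, h1, div_pow σ, hσ]
        nlinarith [sq_nonneg ‖s‖]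
      have hnb : ‖b‖ ^ 2 < δ := by
        rw [hb, norm_sub_sq_real, inner_smul_left, inner_smul_right, h2', norm_smul, norm_smul,
          mul_pow, mul_pow, Real.norm_eq_abs, Real.norm_eq_abs, sq_abs, sq_abs, h1, div_pow σ, hσ]
        nlinarith [sq_nonneg ‖s‖]
      have hX : ∀ c, X c = (o (c + (2 * t) • a + a) - o (c + (2 * t) • a)) - (o (c + a) - o c) := by
        intro c
        have e1 := (A s ((t * σ) • s') hs (by rw [inner_smul_right, h2', mul_zero])).shift
          (c + t • s)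
        have e2 := (A b ((2 * t) • a) hnb
          (by rw [inner_smul_right, real_inner_comm, hab, mul_zero])).shift (c + a)
        rw [show c + t • s + (t * σ) • s' = c + (2 * t) • a by rw [ha]; module] at e1
        rw [show c + a + (2 * t) • a + b = c + (2 * t) • a + s by rw [ha, hb]; module,
          show c + a + (2 * t) • a = c + (2 * t) • a + a by abel,
          show c + a + b = c + s by rw [ha, hb]; module] at e2
        simp only [X]
        linear_combination (norm := abel) e2 - e1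
      intro c
      have p := A a (t • b) hna (by rw [inner_smul_right, hab, mul_zero])
      rw [hX, hX, p.shift c, add_right_comm c (t • b), p.shift]
    have hX : ∀ c, X (c + t • s) = X c := fun c => by
      rw [← key 1 (by norm_num) c,
        ← key (-1) (by norm_num) (c + t • ((1 / 2 : ℝ) • s - (1 / 2 : ℝ) • s'))]
      congr 1
      module
    have hn : ∀ (n : ℕ) c, o (c + n • t • s + s) - o (c + n • t • s) =
        o (c + s) - o c + n • X c := by
      intro n
      induction n with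
      | zero => simp
      | succ n ih =>
        intro c
        have := ih (c + t • s)
        rw [hX] at this
        rw [succ_nsmul', ← add_assoc c, this, succ_nsmul]
        simp only [X]
        abel
    intro c
    have hX0 : X c = 0 := by
      by_contra h0
      obtain ⟨n, hn'⟩ := exists_nat_gt (4 / ‖X c‖)
      rw [div_lt_iff₀ (norm_pos_iff.2 h0)] at hn'
      have e : n • X c = (o (c + n • t • s + s) - o (c + n • t • s)) - (o (c + s) - o c) := by
        rw [hn]; abel
      have h3 := norm_sub_le (o (c + n • t • s + s) - o (c + n • t • s)) (o (c + s) - o c)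
      rw [← e, ← Nat.cast_smul_eq_nsmul ℝ, norm_smul, Real.norm_natCast] at h3
      have h4 := hb (c + n • t • s) s (by linarith)
      have h5 := hb c s (by linarith)
      linarith
    simp only [X] at hX0
    rw [add_right_comm c s]
    linear_combination (norm := abel) hX0
  have C : ∀ s w : E, ‖s‖ ^ 2 < δ → Par o s w := by
    intro s w hs
    by_cases h0 : s = 0
    · rw [h0]; exact (Par.zero w).symm
    have hs0 : ‖s‖ ^ 2 ≠ 0 := by simpa using h0
    have := (B s (⟪s, w⟫ / ‖s‖ ^ 2) hs).add (A s (w - (⟪s, w⟫ / ‖s‖ ^ 2) • s) hs (by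
      rw [inner_sub_right, inner_smul_right, real_inner_self_eq_norm_sq]; field_simp; ring))
    rwa [add_sub_cancel] at this
  exact (of_small (Par o w) (Par.zero w) (fun _ _ => Par.add) hδ s
    fun t ht => (C _ w ht).symm).symm

theorem isometry_of_pres (hg : Pres g) (hG : Gadget E j N) (hn : finrank ℝ F + 2 ≤ N + j)
    (hm : finrank ℝ F ≤ finrank ℝ E + m) (hd : 2 * (m + j) + 2 ≤ finrank ℝ E) (hj : 1 ≤ j)
    (x y : E) : ‖g x - g y‖ = ‖x - y‖ := by
  classical
  obtain ⟨o, ho⟩ := exists_ctr hg hG hn hm (by omega)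
  have hd3 : 3 ≤ finrank ℝ E := by omega
  have hpar := par_all (o := o) hd3 (δ := 4 / (((2 * (m + j) : ℕ) : ℝ) + 1)) (by positivity)
    (div_le_self (by norm_num) (by simp only [le_add_iff_nonneg_left]; positivity))
    (fun s w h1 h2 => rect hg hG hn hm hd ho h1 h2) (fun c s hs => ho.bound hd3 c hs)
  let A : E →+ F := AddMonoidHom.mk' (fun t => o t - o 0) fun s w => by
    have := hpar s w 0
    simp only [zero_add] at this
    linear_combination (norm := abel) this
  have hA : Continuous A := by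
    refine A.continuous_of_isBounded_nhds_zero (Metric.ball_mem_nhds 0 one_pos)
      (isBounded_iff_forall_norm_le.2 ⟨2, ?_⟩)
    rintro _ ⟨s, hs, rfl⟩
    have h1 : ‖s‖ < 1 := by simpa using hs
    simpa [A] using ho.bound hd3 0 (s := s) (by nlinarith [norm_nonneg s])
  let L := A.toRealLinearMap hA
  have hL : ∀ c t, o (c + t) = o c + L t := fun c t => by
    have := hpar c t 0
    simp only [zero_add] at this
    change _ = o c + (o t - o 0)
    linear_combination (norm := abel) this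
  let u : E → F := fun x => g x - o x
  have hu : ∀ x e, ‖e‖ = 1 → ⟪u x, L e⟫ = 0 ∧ ‖u x‖ ^ 2 + ‖L e‖ ^ 2 = 1 := by
    intro x e he
    have h1 := ho.sphere (x + e) (e := -e) (by simpa using he)
    have h2 := ho.sphere (x + -e) he
    rw [hL, add_neg_cancel_right, ← sub_sub, norm_sub_sq_real] at h1
    rw [hL, neg_add_cancel_right, ← sub_sub, map_neg, sub_neg_eq_add, norm_add_sq_real] at h2
    constructor <;> simp only [u] <;> linarith
  have hunit : ∀ t : E, ∃ e, ‖e‖ = 1 ∧ t = ‖t‖ • e := fun t => by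
    by_cases h : t = 0
    · obtain ⟨v, hv, -⟩ := exists_orth_two t t 1 hd3
      exact ⟨v 0, hv.1 0, by simp [h]⟩
    · exact ⟨‖t‖⁻¹ • t, norm_smul_inv_norm h, by
        rw [smul_smul, mul_inv_cancel₀ (norm_ne_zero_iff.2 h), one_smul]⟩
  have hu1 : ∀ x t, ⟪u x, L t⟫ = 0 := fun x t => by
    obtain ⟨e, he, h⟩ := hunit t
    rw [h, map_smul, inner_smul_right, (hu x e he).1, mul_zero]
  have hu2 : ∀ x t, ‖L t‖ ^ 2 = (1 - ‖u x‖ ^ 2) * ‖t‖ ^ 2 := fun x t => by
    obtain ⟨e, he, h⟩ := hunit t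
    conv_lhs => rw [h, map_smul, norm_smul, mul_pow, norm_norm]
    linear_combination (‖t‖ ^ 2) * (hu x e he).2
  have hdist : ∀ x y, ‖g x - g y‖ ^ 2 = ‖L (x - y)‖ ^ 2 + ‖u x - u y‖ ^ 2 := fun x y => by
    have e : g x - g y = L (x - y) + (u x - u y) := by
      have := hL y (x - y)
      rw [add_sub_cancel] at this
      simp only [u, this]; abel
    rw [e, norm_add_sq_real, real_inner_comm, inner_sub_left, hu1, hu1]; ring
  have hsame : ∀ x y, ‖u x‖ ^ 2 = ‖u y‖ ^ 2 := fun x y => by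
    obtain ⟨e, he, -⟩ := hunit 0
    linarith [(hu x e he).2, (hu y e he).2]
  have horth : ∀ x y, ‖x - y‖ ^ 2 = 2 → ⟪u x, u y⟫ = 0 := fun x y h => by
    have h1 := hg x y h
    rw [hdist, hu2 x, h, norm_sub_sq_real (u x), hsame y x] at h1
    linarith
  have hzero : ∀ x, u x = 0 := by
    by_contra hcon
    have hne : ∀ x, u x ≠ 0 := fun x hx => hcon fun y => by
      have := hsame y x
      simpa [hx] using this
    let b := stdOrthonormalBasis ℝ E
    have h1 := few_nonfull hg hG hn hm ho 0 b b.orthonormal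
    have h2 := Finset.card_filter_add_card_filter_not (s := Finset.univ)
      (fun i => mid g 0 (b i) - o 0 = 0)
    simp only [Finset.card_univ, Fintype.card_fin, ne_eq] at h1 h2
    obtain ⟨φ, hφ, hφ'⟩ := exists_sub_family (j := j) (Finset.univ.filter
      fun i => mid g 0 (b i) - o 0 = 0) (by omega)
    obtain ⟨p, hp⟩ := hG.config 0 (b ∘ φ) (b.orthonormal.comp _ hφ) (fun x y => ⟪x, y⟫ = 0)
      (fun x y h => by rwa [real_inner_comm]) u horth (fun a z h => by
        have h3 := (Finset.mem_filter.1 (hφ' a)).2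
        have h4 : u (0 + (b ∘ φ) a) = -u (0 - (b ∘ φ) a) := by
          simp only [u, Function.comp, sub_eq_add_neg (0 : E), hL, map_neg]
          simp only [mid, sub_eq_add_neg (0 : E)] at h3
          linear_combination (norm := module) (2 : ℝ) • h3
        rw [h4, inner_neg_right, h, neg_zero])
    have := card_le_of_orth _ hp fun i => hne _
    simp at this
    omega
  rw [← sq_eq_sq₀ (norm_nonneg _) (norm_nonneg _), hdist, hu2 x, hzero, hzero]
  simp

end Pool.Agent.MP_66cee2_co.H44
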