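import Pool.Agent.MP_66cee2_co.H44.Main

/-!
Choice of the parameters of the gadget.
-/

namespace Pool.Agent.MP_66cee2_co.H44

/-- Admissible parameters of the gadget in dimension `d`. -/
abbrev Good (d s a r : ℕ) : Prop :=
  2 ≤ a ∧ 1 ≤ r ∧ r ≤ 2 ^ s ∧
    2 * r * a + (2 ^ s - r) ≤ d + 1 ∧ (d - 1) / 7 + 1 ≤ r ∧
    2 * ((d - 1) / 7 + ((d - 1) / 7 + 1 + (2 ^ s - r))) + 2 ≤ d ∧
    ((d + 1 - (2 ^ s - r) - 2 * r * a) * r + 2 ^ s) ^ 2 ≤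
      4 * (d + 1 - (2 ^ s - r)) * r * 2 ^ s

/-- Parameters for small dimensions. -/
def wit : List (ℕ × ℕ × ℕ) :=
  [(0, 0, 0), (0, 0, 0), (0, 0, 0), (0, 0, 0), (0, 0, 0), (0, 0, 0), (0, 0, 0), (0, 0, 0), (1,
   2, 2), (1, 2, 2), (1, 2, 2), (1, 2, 2), (1, 2, 2), (1, 2, 2), (1, 3, 2), (2, 2, 3), (2, 2,
   3), (2, 2, 3), (2, 2, 3), (2, 2, 3), (2, 2, 3), (2, 2, 3), (2, 2, 4), (2, 2, 4), (2, 2, 4),
   (2, 3, 4), (2, 3, 4), (2, 3, 4), (2, 3, 4), (3, 2, 5), (3, 2, 5), (3, 2, 5), (3, 2, 5), (3,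
   2, 5), (3, 2, 5), (3, 2, 6), (3, 2, 6), (3, 2, 6), (3, 2, 7), (3, 2, 7), (3, 2, 7), (3, 2,
   8), (3, 2, 8), (3, 2, 8), (3, 3, 7), (3, 3, 7), (3, 3, 7), (3, 3, 7), (3, 3, 7), (3, 3, 7),
   (3, 3, 8), (3, 3, 8), (3, 3, 8), (3, 3, 8), (3, 3, 8), (3, 3, 8), (3, 3, 8), (4, 2, 9), (4,
   2, 9), (4, 2, 9), (4, 2, 10), (4, 2, 10), (4, 2, 10), (4, 2, 11), (4, 2, 11), (4, 2, 11), (4,
   2, 12), (4, 2, 12), (4, 2, 12), (4, 2, 13), (4, 2, 13), (4, 2, 13), (4, 2, 14), (4, 2, 14),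
   (4, 2, 14), (4, 2, 15), (4, 2, 15), (4, 2, 15), (4, 2, 16), (4, 2, 16), (4, 2, 16), (4, 3,
   12), (4, 3, 12), (4, 3, 12), (4, 3, 12), (4, 3, 13), (4, 3, 13), (4, 3, 13), (4, 3, 13), (4,
   3, 13), (4, 3, 13), (4, 3, 13), (4, 3, 14), (4, 3, 14), (4, 3, 14), (4, 3, 14), (4, 3, 14),
   (4, 3, 14), (4, 3, 14), (4, 3, 15), (4, 3, 15), (4, 3, 15), (4, 3, 15), (4, 3, 15), (4, 3,
   15), (4, 3, 15), (4, 3, 16), (4, 3, 16), (4, 3, 16), (4, 3, 16), (4, 3, 16), (4, 3, 16), (4,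
   3, 16), (5, 2, 20), (5, 2, 20), (5, 2, 20), (5, 2, 21), (5, 2, 21), (5, 2, 21), (5, 2, 22),
   (5, 2, 22), (5, 2, 22), (5, 2, 23), (5, 2, 23), (5, 2, 23), (5, 2, 24), (5, 2, 24), (5, 2,
   25), (5, 2, 25), (5, 2, 25), (5, 2, 26), (5, 2, 26), (5, 2, 26), (5, 2, 27), (5, 2, 27), (5,
   2, 27), (5, 2, 28), (5, 2, 28), (5, 2, 28), (5, 2, 29), (5, 2, 29), (5, 2, 29), (5, 2, 30),
   (5, 2, 30), (5, 2, 30), (5, 2, 31), (5, 2, 31), (5, 2, 31), (5, 2, 32), (5, 2, 32), (5, 2,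
   32), (5, 3, 22), (5, 3, 22), (5, 3, 22), (5, 3, 22), (5, 3, 23), (5, 3, 23), (5, 3, 23), (5,
   3, 23), (5, 3, 23), (5, 3, 23), (5, 3, 23), (5, 3, 24), (5, 3, 24), (5, 3, 24), (5, 3, 24),
   (5, 3, 24), (5, 3, 24), (5, 3, 24), (5, 3, 25), (5, 3, 25), (5, 3, 25), (5, 3, 25), (5, 3,
   25), (5, 3, 25), (5, 3, 25), (5, 3, 26), (5, 3, 26), (5, 3, 26), (5, 3, 26), (5, 3, 26), (5,
   3, 26), (5, 3, 26), (5, 3, 27), (5, 3, 27), (5, 3, 27), (5, 3, 27), (5, 3, 27), (5, 3, 27),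
   (5, 3, 27), (5, 3, 28), (5, 3, 28), (5, 3, 28), (5, 3, 28), (5, 3, 28), (5, 3, 28), (5, 3,
   28), (5, 3, 29), (5, 3, 29), (5, 3, 29), (5, 3, 29), (5, 3, 29), (5, 3, 29), (5, 3, 29), (5,
   3, 30), (5, 3, 30), (5, 3, 30), (5, 3, 30), (5, 3, 30), (5, 3, 30), (5, 3, 31), (5, 3, 31),
   (5, 3, 31), (5, 3, 31), (5, 3, 31), (5, 3, 32), (5, 3, 32), (5, 3, 32), (5, 3, 32), (5, 3,
   32)]

theorem params (d : ℕ) (hd : 8 ≤ d) : ∃ s a r : ℕ, Good d s a r := by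
  by_cases h : d < 220
  · have : (List.range 220).all (fun d => decide (d < 8) || decide (Good d (wit.getD d 0).1
        (wit.getD d 0).2.1 (wit.getD d 0).2.2)) = true := by decide +kernel
    have := List.all_eq_true.1 this d (List.mem_range.2 h)
    simp only [Bool.or_eq_true, decide_eq_true_eq] at this
    exact ⟨_, _, _, this.resolve_left (by omega)⟩
  obtain ⟨s, hs1, hs2⟩ : ∃ s, d + 1 ≤ 6 * 2 ^ s ∧ 3 * 2 ^ s < d + 1 := by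
    have hex : ∃ s, d + 1 ≤ 6 * 2 ^ s := ⟨d, by have := d.lt_two_pow_self; omega⟩
    refine ⟨Nat.find hex, Nat.find_spec hex, ?_⟩
    rcases h0 : Nat.find hex with _ | k
    · omega
    · have := Nat.find_min hex (m := k) (by omega)
      rw [pow_succ]; omega
  have key : ∀ M r z N : ℕ, z ≤ 4 → r ≤ M → M ≤ 2 * r → 13 ≤ N → (z * r + M) ^ 2 ≤ 4 * N * r * M := by
    intro M r z N h1 h2 h3 h4
    have : z * r + M ≤ 5 * M := by nlinarith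
    calc _ ≤ (5 * M) ^ 2 := Nat.pow_le_pow_left this 2
      _ = 25 * M * M := by ring
      _ ≤ _ := Nat.mul_le_mul_right _ (by nlinarith)
  by_cases h4 : d + 1 ≤ 4 * 2 ^ s
  · refine ⟨s, 2, (d + 1 - 2 ^ s) / 3, by omega, by omega, by omega, by omega, by omega, by omega,
      key _ _ _ _ (by omega) (by omega) (by omega) (by omega)⟩
  · refine ⟨s, 3, (d + 1 - 2 ^ s) / 5, by omega, by omega, by omega, by omega, by omega, by omega,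
      key _ _ _ _ (by omega) (by omega) (by omega) (by omega)⟩

end Pool.Agent.MP_66cee2_co.H44
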